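import Mathlib

/-!
Crossed products and `G`-sets. A ring graded by `G` is, for every `G`-set `Y` with a base point
`o`, the direct sum of the parts `R_(y)` (sum of the components of all `g` with `g • o = y`).
If `c` has support `S` and `c * b = 1`, look at the points of the support of `b` in `Y`.
-/

set_option autoImplicit false

namespace Pool.Agent.Work.MP87745.Sch

open DirectSum

variable {G : Type*} [Group G] {R : Type*} [Ring R] [DecidableEq (Additive G)]
  (𝒜 : Additive G → AddSubgroup R) [GradedRing 𝒜]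
  {Y : Type*} [MulAction G Y] (o : Y)

open Classical in
/-- the part of `d` lying over the point `y` of `Y` -/
noncomputable def part (y : Y) : R →+ R :=
  (DirectSum.toAddMonoid (fun g : Additive G =>
    if (Additive.toMul g) • o = y then (𝒜 g).subtype else 0)).comp
    (decomposeAddEquiv 𝒜).toAddMonoidHom

theorem part_of_mem {g : Additive G} {a : R} (ha : a ∈ 𝒜 g) (y : Y) [Decidable ((Additive.toMul g) • o = y)] :
    part 𝒜 o y a = if (Additive.toMul g) • o = y then a else 0 := by
  classical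
  unfold part
  simp only [AddMonoidHom.coe_comp, Function.comp_apply, AddEquiv.toAddMonoidHom_eq_coe,
    AddMonoidHom.coe_coe, decomposeAddEquiv_apply]
  rw [decompose_of_mem 𝒜 ha, DirectSum.toAddMonoid_of]
  split_ifs <;> simp

theorem part_mul {s : G} {c : R} (hc : c ∈ 𝒜 (Additive.ofMul s)) (d : R) (y : Y) :
    part 𝒜 o y (c * d) = c * part 𝒜 o (s⁻¹ • y) d := by
  classical
  induction d using DirectSum.Decomposition.inductionOn 𝒜 with
  | zero => simp
  | @homogeneous g m =>
    have h1 : c * (m : R) ∈ 𝒜 (Additive.ofMul s + g) := SetLike.GradedMul.mul_mem hc m.2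
    rw [part_of_mem 𝒜 o h1, part_of_mem 𝒜 o m.2]
    have h2 : ((Additive.toMul (Additive.ofMul s + g)) • o = y) ↔
        ((Additive.toMul g) • o = s⁻¹ • y) := by
      rw [toMul_add, toMul_ofMul, mul_smul]
      exact smul_eq_iff_eq_inv_smul s
    by_cases h3 : (Additive.toMul g) • o = s⁻¹ • y
    · rw [if_pos h3, if_pos (h2.2 h3)]
    · rw [if_neg h3, if_neg (fun h => h3 (h2.1 h)), mul_zero]
  | add a b ha hb => rw [mul_add, map_add, map_add, mul_add, ha, hb]

theorem exists_finset (d : R) : ∃ A : Finset Y, (∀ y, part 𝒜 o y d ≠ 0 ↔ y ∈ A) ∧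
    (∑ y ∈ A, part 𝒜 o y d) = d := by
  classical
  have h : ∃ B : Finset Y, (∀ y, y ∉ B → part 𝒜 o y d = 0) ∧ (∑ y ∈ B, part 𝒜 o y d) = d := by
    induction d using DirectSum.Decomposition.inductionOn 𝒜 with
    | zero => exact ⟨∅, by simp, by simp⟩
    | @homogeneous g m =>
      refine ⟨{(Additive.toMul g) • o}, ?_, ?_⟩
      · intro y hy
        rw [part_of_mem 𝒜 o m.2, if_neg]
        intro h
        exact hy (by simp [h])
      · rw [Finset.sum_singleton, part_of_mem 𝒜 o m.2, if_pos rfl]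
    | add a b ha hb =>
      obtain ⟨B, hB1, hB2⟩ := ha
      obtain ⟨C, hC1, hC2⟩ := hb
      refine ⟨B ∪ C, ?_, ?_⟩
      · intro y hy
        rw [Finset.mem_union, not_or] at hy
        rw [map_add, hB1 y hy.1, hC1 y hy.2, add_zero]
      · have h1 : (∑ y ∈ B ∪ C, part 𝒜 o y a) = a := by
          rw [← Finset.sum_subset Finset.subset_union_left (fun y _ hy => hB1 y hy)]
          exact hB2
        have h2 : (∑ y ∈ B ∪ C, part 𝒜 o y b) = b := by
          rw [← Finset.sum_subset Finset.subset_union_right (fun y _ hy => hC1 y hy)]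
          exact hC2
        simp only [map_add, Finset.sum_add_distrib]
        rw [h1, h2]
  obtain ⟨B, hB1, hB2⟩ := h
  refine ⟨B.filter (fun y => part 𝒜 o y d ≠ 0), ?_, ?_⟩
  · intro y
    rw [Finset.mem_filter]
    constructor
    · intro h
      refine ⟨?_, h⟩
      by_contra hy
      exact h (hB1 y hy)
    · exact fun h => h.2
  · rw [Finset.sum_filter_ne_zero]
    exact hB2

/-- Let `c = ∑ c_s` (`s ∈ S`) with nonzero homogeneous `c_s` of degree `s`, in a graded ring
without zero divisors. If `c` has a right inverse, then some finite nonempty set `A` of points of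
the `⟨S⟩`-orbit of `o` has no point `y ≠ o` with exactly one `S`-neighbour in `A`. -/
theorem no_right_inverse [NoZeroDivisors R] [Nontrivial R] (S : Finset G) (c : G → R)
    (hc : ∀ s ∈ S, c s ∈ 𝒜 (Additive.ofMul s)) (hc0 : ∀ s ∈ S, c s ≠ 0)
    (hun : ∀ A : Finset Y, A.Nonempty →
      (∀ y ∈ A, y ∈ MulAction.orbit (Subgroup.closure (S : Set G)) o) →
      ∃ x ∈ A, ∃ s ∈ S, s • x ≠ o ∧ ∀ x' ∈ A, ∀ s' ∈ S, s' • x' = s • x → x' = x)
    (b : R) (hb : (∑ s ∈ S, c s) * b = 1) : False := by
  classical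
  obtain ⟨A, hA1, hA2⟩ := exists_finset 𝒜 o b
  have hone : ∀ y : Y, part 𝒜 o y (1 : R) = if y = o then 1 else 0 := by
    intro y
    have h1 : (1 : R) ∈ 𝒜 0 := SetLike.GradedOne.one_mem
    rw [part_of_mem 𝒜 o h1]
    simp only [toMul_zero, one_smul]
    by_cases h : y = o
    · rw [if_pos h.symm, if_pos h]
    · rw [if_neg (fun h' => h h'.symm), if_neg h]
  have hexp : ∀ y : Y, part 𝒜 o y (1 : R) = ∑ s ∈ S, c s * part 𝒜 o (s⁻¹ • y) b := by
    intro y
    rw [← hb, Finset.sum_mul, map_sum]
    exact Finset.sum_congr rfl (fun s hs => part_mul 𝒜 o (hc s hs) b y)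
  -- the part of the support in the orbit
  set A' := A.filter (fun y => y ∈ MulAction.orbit (Subgroup.closure (S : Set G)) o) with hA'
  have hne : A'.Nonempty := by
    have h1 := hexp o
    rw [hone, if_pos rfl] at h1
    have h2 : ∃ s ∈ S, c s * part 𝒜 o (s⁻¹ • o) b ≠ 0 := by
      by_contra hcon
      push Not at hcon
      rw [Finset.sum_eq_zero hcon] at h1
      exact one_ne_zero h1
    obtain ⟨s, hs, hs0⟩ := h2
    refine ⟨s⁻¹ • o, ?_⟩
    rw [hA', Finset.mem_filter]
    refine ⟨(hA1 _).1 (right_ne_zero_of_mul hs0), ?_⟩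
    exact ⟨⟨s⁻¹, Subgroup.inv_mem _ (Subgroup.subset_closure hs)⟩, rfl⟩
  obtain ⟨x, hx, s, hs, hso, huniq⟩ := hun A' hne (fun y hy => (Finset.mem_filter.1 hy).2)
  have hxA := (Finset.mem_filter.1 hx).1
  have hxo := (Finset.mem_filter.1 hx).2
  have hpx : part 𝒜 o x b ≠ 0 := (hA1 x).2 hxA
  have h3 := hexp (s • x)
  rw [hone, if_neg hso] at h3
  -- only the terms with `t • x = s • x` survive
  have h4 : ∀ t ∈ S, c t * part 𝒜 o (t⁻¹ • s • x) b =
      (if t • x = s • x then c t else 0) * part 𝒜 o x b := by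
    intro t ht
    by_cases h5 : t • x = s • x
    · rw [if_pos h5, ← h5, inv_smul_smul]
    · rw [if_neg h5, zero_mul]
      have h6 : part 𝒜 o (t⁻¹ • s • x) b = 0 := by
        by_contra h7
        have h8 : t⁻¹ • s • x ∈ A' := by
          rw [hA', Finset.mem_filter]
          refine ⟨(hA1 _).1 h7, ?_⟩
          obtain ⟨g, hg⟩ := hxo
          refine ⟨⟨t⁻¹ * s * g, ?_⟩, ?_⟩
          · exact Subgroup.mul_mem _ (Subgroup.mul_mem _
              (Subgroup.inv_mem _ (Subgroup.subset_closure ht)) (Subgroup.subset_closure hs)) g.2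
          · simp only at hg
            show (t⁻¹ * s * (g : G)) • o = _
            rw [mul_smul, mul_smul, ← hg]
            rfl
        have h9 := huniq _ h8 t ht (by rw [smul_inv_smul])
        apply h5
        rw [← h9, smul_inv_smul]
        rw [h9]
      rw [h6, mul_zero]
  rw [Finset.sum_congr rfl h4, ← Finset.sum_mul] at h3
  have h5 : (∑ t ∈ S, if t • x = s • x then c t else 0) = 0 := by
    rcases mul_eq_zero.1 h3.symm with h6 | h6
    · exact h6
    · exact (hpx h6).elim
  -- the component of degree `s` of this sum is `c s`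
  have h6 : (decompose 𝒜 (∑ t ∈ S, if t • x = s • x then c t else 0) (Additive.ofMul s) : R)
      = c s := by
    rw [decompose_sum, DFinsupp.finsetSum_apply, AddSubgroup.val_finsetSum]
    rw [Finset.sum_eq_single s]
    · rw [if_pos rfl, decompose_of_mem_same 𝒜 (hc s hs)]
    · intro t ht hts
      by_cases h7 : t • x = s • x
      · rw [if_pos h7]
        exact decompose_of_mem_ne 𝒜 (hc t ht) (fun h => hts (Additive.ofMul.injective h))
      · rw [if_neg h7, decompose_zero]
        rfl
    · exact fun h => (h hs).elim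
  rw [h5, decompose_zero] at h6
  exact hc0 s hs h6.symm

/-- A crossed product which is a division ring: no orbit in which every point has a private
neighbour. -/
theorem no_private {G : Type*} [Group G] {D : Type*} [DivisionRing D]
    [DecidableEq (Additive G)] (𝒜 : Additive G → AddSubgroup D) [GradedRing 𝒜]
    (h𝒜 : ∀ g : Additive G, 𝒜 g ≠ ⊥) {Y : Type*} [MulAction G Y] (S : Finset G) (o : Y)
    {α : Type*} [LinearOrder α] (l : Y → α)
    (h : ∀ x ∈ MulAction.orbit (Subgroup.closure (S : Set G)) o, ∃ s ∈ S, s • x ≠ o ∧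
      ∀ x' ∈ MulAction.orbit (Subgroup.closure (S : Set G)) o, ∀ s' ∈ S,
        s' • x' = s • x → x' ≠ x → l x < l x') : False := by
  classical
  have h1 : ∀ g : G, ∃ c ∈ 𝒜 (Additive.ofMul g), c ≠ 0 := by
    intro g
    obtain ⟨c, hc⟩ := AddSubgroup.ne_bot_iff_exists_ne_zero.1 (h𝒜 (Additive.ofMul g))
    exact ⟨c, c.2, fun h0 => hc (Subtype.ext h0)⟩
  choose c hc hc0 using h1
  have hS : ∃ s, s ∈ S := by
    obtain ⟨s, hs, -⟩ := h o (MulAction.mem_orbit_self o)
    exact ⟨s, hs⟩
  obtain ⟨s₀, hs₀⟩ := hS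
  -- the element `∑ c s` is not zero
  have hne : (∑ s ∈ S, c s) ≠ 0 := by
    intro h0
    have h2 : (decompose 𝒜 (∑ s ∈ S, c s) (Additive.ofMul s₀) : D) = c s₀ := by
      rw [decompose_sum, DFinsupp.finsetSum_apply, AddSubgroup.val_finsetSum]
      rw [Finset.sum_eq_single s₀]
      · rw [decompose_of_mem_same 𝒜 (hc s₀)]
      · intro t _ hts
        exact decompose_of_mem_ne 𝒜 (hc t) (fun h => hts (Additive.ofMul.injective h))
      · exact fun h => (h hs₀).elim
    rw [h0, decompose_zero] at h2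
    exact hc0 s₀ h2.symm
  refine no_right_inverse 𝒜 o S c (fun s _ => hc s) (fun s _ => hc0 s) ?_
    ((∑ s ∈ S, c s)⁻¹) (mul_inv_cancel₀ hne)
  intro A hA hAo
  obtain ⟨x, hx, hmax⟩ := A.exists_max_image l hA
  obtain ⟨s, hs, hso, huniq⟩ := h x (hAo x hx)
  refine ⟨x, hx, s, hs, hso, ?_⟩
  intro x' hx' s' hs' heq
  by_contra hne'
  exact absurd (huniq x' (hAo x' hx') s' hs' heq hne') (not_lt.2 (hmax x' hx'))

end Pool.Agent.Work.MP87745.Sch
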