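import Mathlib

/-!
A finitely generated group with a finite index subgroup all of whose conjugacy classes are finite:
its torsion images are finite.
-/

set_option autoImplicit false

namespace Pool.Agent.Work.MP87745.FinGrp

theorem finiteIndex_centralizer {E : Type*} [Group E] (a : E)
    (h : {z : E | ∃ t : E, z = t * a * t⁻¹}.Finite) : (Subgroup.centralizer {a}).FiniteIndex := by
  rw [Subgroup.finiteIndex_iff_finite_quotient]
  have : Finite {z : E | ∃ t : E, z = t * a * t⁻¹} := h
  refine Finite.of_injective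
    (fun q : E ⧸ Subgroup.centralizer {a} =>
      (⟨Quotient.out q * a * (Quotient.out q)⁻¹, _, rfl⟩ : {z : E | ∃ t : E, z = t * a * t⁻¹})) ?_
  intro q q' hq
  have h1 : Quotient.out q * a * (Quotient.out q)⁻¹ = Quotient.out q' * a * (Quotient.out q')⁻¹ :=
    congrArg Subtype.val hq
  rw [← Quotient.out_eq q, ← Quotient.out_eq q']
  apply QuotientGroup.eq.2
  rw [Subgroup.mem_centralizer_singleton_iff]
  have h2 : (Quotient.out q)⁻¹ * Quotient.out q' * a
      = (Quotient.out q)⁻¹ * (Quotient.out q' * a * (Quotient.out q')⁻¹) * Quotient.out q' := by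
    group
  rw [h2, ← h1]
  group

theorem finite_range {E G : Type*} [Group E] [Group G] (H : Subgroup E) [H.FiniteIndex]
    (f : E →* G) (h : (f '' (H : Set E)).Finite) : (Set.range f).Finite := by
  have : Finite (E ⧸ H) := inferInstance
  have h1 : (⋃ q : E ⧸ H, (fun y => f (Quotient.out q) * y) '' (f '' (H : Set E))).Finite :=
    Set.finite_iUnion (fun q => h.image _)
  refine h1.subset ?_
  rintro _ ⟨e, rfl⟩
  simp only [Set.mem_iUnion]
  refine ⟨(QuotientGroup.mk e : E ⧸ H),
    f ((Quotient.out (QuotientGroup.mk e : E ⧸ H))⁻¹ * e), ⟨_, ?_, rfl⟩, ?_⟩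
  · apply QuotientGroup.eq.1
    exact Quotient.out_eq _
  · simp [← map_mul]

theorem finite_of_fc {E G : Type*} [Group E] [Group.FG E] [Group G] (Δ : Subgroup E)
    [Δ.FiniteIndex] (hfc : ∀ a ∈ Δ, {z : E | ∃ t ∈ Δ, z = t * a * t⁻¹}.Finite) (f : E →* G)
    (htor : ∀ e : E, ∃ n : ℕ, 0 < n ∧ f e ^ n = 1) : (Set.range f).Finite := by
  have hFG : Group.FG Δ := inferInstance
  obtain ⟨T, hT⟩ := Group.fg_iff.1 hFG
  obtain ⟨hT, hTf⟩ := hT
  have : Finite T := hTf
  have hcen : (Subgroup.center Δ).FiniteIndex := by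
    rw [Subgroup.center_eq_infi' hT]
    have : ∀ g : T, (Subgroup.centralizer {(g : Δ)}).FiniteIndex := by
      intro g
      apply finiteIndex_centralizer
      have h1 := hfc ((g : Δ) : E) (g : Δ).2
      refine Set.Finite.of_finite_image (f := Subtype.val) (h1.subset ?_)
        Subtype.val_injective.injOn
      rintro _ ⟨z, ⟨t, rfl⟩, rfl⟩
      exact ⟨t, t.2, by simp⟩
    exact Subgroup.finiteIndex_iInf this
  have hZfg : Group.FG (Subgroup.center Δ) := inferInstance
  -- the image of the centre
  have hZ : (Set.range (f.comp (Δ.subtype.comp (Subgroup.center Δ).subtype))).Finite := by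
    set g := f.comp (Δ.subtype.comp (Subgroup.center Δ).subtype) with hg
    have hrfg : Group.FG g.range := inferInstance
    let _ : CommGroup g.range := { (inferInstance : Group g.range) with
      mul_comm := by
        rintro ⟨_, a, rfl⟩ ⟨_, b, rfl⟩
        apply Subtype.ext
        show g a * g b = g b * g a
        have : a * b = b * a := by
          apply Subtype.ext
          exact (Subgroup.mem_center_iff.1 b.2 a)
        rw [← map_mul, ← map_mul, this] }
    have hfin : Finite g.range := by
      apply CommGroup.finite_of_fg_isMulTorsion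
      rintro ⟨_, a, rfl⟩
      obtain ⟨n, hn, h1⟩ := htor ((a : Δ) : E)
      rw [isOfFinOrder_iff_pow_eq_one]
      refine ⟨n, hn, ?_⟩
      apply Subtype.ext
      exact h1
    have : (g.range : Set G).Finite := hfin
    rwa [MonoidHom.coe_range] at this
  have h2 : (Set.range (f.comp Δ.subtype)).Finite := by
    apply finite_range (Subgroup.center Δ)
    refine hZ.subset ?_
    rintro _ ⟨a, ha, rfl⟩
    exact ⟨⟨a, ha⟩, rfl⟩
  apply finite_range Δ
  refine h2.subset ?_
  rintro _ ⟨a, ha, rfl⟩
  exact ⟨⟨a, ha⟩, rfl⟩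

end Pool.Agent.Work.MP87745.FinGrp
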