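import Mathlib

/-!
Subgroups `Γ` of the unit group of a domain (not necessarily commutative) in which every element
has a central power `a ^ (2 ^ n)`: there is a subgroup of finite index all of whose conjugacy
classes are finite.
-/

set_option autoImplicit false

namespace Pool.Agent.Work.MP87745.Two

variable {R : Type*} [Ring R] [IsDomain R]

theorem eq_or_neg_of_sq {a b : Rˣ} (h : Commute a b) (h2 : a ^ 2 = b ^ 2) : a = b ∨ a = -b := by
  have h1 : Commute (a : R) (b : R) := by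
    have := congrArg (fun u : Rˣ => (u : R)) h.eq
    simpa [Commute, SemiconjBy] using this
  have h3 : (a : R) ^ 2 = (b : R) ^ 2 := by
    have := congrArg (fun u : Rˣ => (u : R)) h2
    simpa using this
  rcases h1.sq_eq_sq_iff_eq_or_eq_neg.1 h3 with h4 | h4
  · left
    exact Units.ext h4
  · right
    apply Units.ext
    simpa using h4

theorem one_or_neg_one {r : Rˣ} (h : r ^ 2 = 1) : r = 1 ∨ r = -1 := by
  have := eq_or_neg_of_sq (Commute.one_right r) (by simpa using h)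
  exact this

theorem torsion_cases : ∀ (l : ℕ) (r : Rˣ), r ^ (2 ^ l) = 1 →
    r ^ 2 = 1 ∨ ((-1 : Rˣ) ≠ 1 ∧ ∃ m : ℕ, (r ^ (2 ^ m)) ^ 2 = -1) := by
  intro l
  induction l with
  | zero =>
    intro r hr
    left
    have : r = 1 := by simpa using hr
    rw [this]; simp
  | succ l ih =>
    intro r hr
    have h1 : (r ^ 2) ^ (2 ^ l) = 1 := by
      rw [← pow_mul, ← pow_succ']
      exact hr
    rcases ih (r ^ 2) h1 with h2 | ⟨h2, m, hm⟩
    · rcases one_or_neg_one h2 with h3 | h3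
      · exact Or.inl h3
      · by_cases h4 : (-1 : Rˣ) = 1
        · left; rw [h3, h4]
        · right
          refine ⟨h4, 0, ?_⟩
          simpa using h3
    · right
      refine ⟨h2, m + 1, ?_⟩
      rw [← hm, ← pow_mul, ← pow_mul, ← pow_mul]
      congr 1
      ring

theorem invert {G : Type*} [Group G] {a b : G} (h : a ^ 2 = b ^ 2) :
    a * (a⁻¹ * b) * a⁻¹ = (a⁻¹ * b)⁻¹ := by
  have h1 : b * (b * a⁻¹) = a := by
    rw [← mul_assoc, ← sq, ← h]
    group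
  have h2 : b * a⁻¹ = b⁻¹ * a := by
    rw [eq_inv_mul_iff_mul_eq]
    exact h1
  calc a * (a⁻¹ * b) * a⁻¹ = b * a⁻¹ := by group
    _ = b⁻¹ * a := h2
    _ = (a⁻¹ * b)⁻¹ := by group

theorem conj_pow' {G : Type*} [Group G] {a r : G} (h : a * r * a⁻¹ = r⁻¹) (n : ℕ) :
    a * r ^ n * a⁻¹ = (r ^ n)⁻¹ := by
  rw [← conj_pow, h, inv_pow]

theorem torsion_of_invert {G : Type*} [Group G] {a r : G} (h : a * r * a⁻¹ = r⁻¹) {k : ℕ}
    (hc : Commute (r ^ (2 ^ k)) a) : r ^ (2 ^ (k + 1)) = 1 := by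
  have h1 := conj_pow' h (2 ^ k)
  have h2 : a * r ^ (2 ^ k) * a⁻¹ = r ^ (2 ^ k) := by
    rw [← hc.eq, mul_assoc, mul_inv_cancel, mul_one]
  rw [h2] at h1
  rw [pow_succ, pow_mul, sq]
  nth_rewrite 1 [h1]
  simp

/-- the hypothesis: every element has a central power with exponent a power of two -/
def PowCentral (Γ : Subgroup Rˣ) : Prop :=
  ∀ a ∈ Γ, ∃ n : ℕ, ∀ v ∈ Γ, Commute (a ^ (2 ^ n)) v

/-- square roots of `-1` in `Γ` are central in `Γ` -/
def RootsCentral (Γ : Subgroup Rˣ) : Prop :=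
  ∀ q ∈ Γ, q ^ 2 = -1 → ∀ v ∈ Γ, Commute q v

theorem sq_eq {Γ : Subgroup Rˣ} (h1 : PowCentral Γ) (h2 : RootsCentral Γ) {a b : Rˣ}
    (ha : a ∈ Γ) (hb : b ∈ Γ) (h : a ^ 2 = b ^ 2) : b = a ∨ b = -a := by
  have hr : a⁻¹ * b ∈ Γ := Γ.mul_mem (Γ.inv_mem ha) hb
  have hinv := invert h
  obtain ⟨k, hk⟩ := h1 _ hr
  have ht := torsion_of_invert hinv (hk a ha)
  rcases torsion_cases _ _ ht with h3 | ⟨h3, m, hm⟩
  · rcases one_or_neg_one h3 with h4 | h4
    · left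
      calc b = a * (a⁻¹ * b) := by group
        _ = a := by rw [h4, mul_one]
    · right
      calc b = a * (a⁻¹ * b) := by group
        _ = -a := by rw [h4]; simp
  · exfalso
    have hq : (a⁻¹ * b) ^ (2 ^ m) ∈ Γ := Γ.pow_mem hr _
    have hc := h2 _ hq hm a ha
    have h4 := conj_pow' hinv (2 ^ m)
    have h5 : a * (a⁻¹ * b) ^ (2 ^ m) * a⁻¹ = (a⁻¹ * b) ^ (2 ^ m) := by
      rw [← hc.eq, mul_assoc, mul_inv_cancel, mul_one]
    rw [h5] at h4
    apply h3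
    rw [← hm, sq]
    nth_rewrite 1 [h4]
    simp

theorem finite_conj {Γ : Subgroup Rˣ} (h1 : PowCentral Γ) (h2 : RootsCentral Γ) :
    ∀ (k : ℕ) (a : Rˣ), a ∈ Γ → (∀ v ∈ Γ, Commute (a ^ (2 ^ k)) v) →
      {z : Rˣ | ∃ t ∈ Γ, z = t * a * t⁻¹}.Finite := by
  intro k
  induction k with
  | zero =>
    intro a ha hk
    refine (Set.finite_singleton a).subset ?_
    rintro z ⟨t, ht, rfl⟩
    have := hk t ht
    simp only [pow_zero, pow_one] at this
    simp only [Set.mem_singleton_iff]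
    rw [← this.eq, mul_assoc, mul_inv_cancel, mul_one]
  | succ k ih =>
    intro a ha hk
    have h3 := ih (a ^ 2) (Γ.pow_mem ha 2) (by
      intro v hv
      rw [← pow_mul, ← pow_succ']
      exact hk v hv)
    have h4 : (⋃ z ∈ {z : Rˣ | ∃ t ∈ Γ, z = t * a ^ 2 * t⁻¹}, {w : Rˣ | w ∈ Γ ∧ w ^ 2 = z}).Finite := by
      refine h3.biUnion ?_
      rintro z -
      by_cases hz : ∃ w : Rˣ, w ∈ Γ ∧ w ^ 2 = z
      · obtain ⟨w, hw, hwz⟩ := hz
        refine (Set.toFinite ({w, -w} : Set Rˣ)).subset ?_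
        rintro y ⟨hy, hyz⟩
        rcases sq_eq h1 h2 hw hy (hwz.trans hyz.symm) with h5 | h5 <;> simp [h5]
      · convert Set.finite_empty
        ext w
        simp only [Set.mem_ofPred_eq, Set.mem_empty_iff_false, iff_false]
        exact fun h => hz ⟨w, h⟩
    refine h4.subset ?_
    rintro z ⟨t, ht, rfl⟩
    simp only [Set.mem_iUnion, Set.mem_ofPred_eq, exists_prop]
    refine ⟨t * a ^ 2 * t⁻¹, ⟨t, ht, rfl⟩, Γ.mul_mem (Γ.mul_mem ht ha) (Γ.inv_mem ht), ?_⟩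
    rw [conj_pow]

/-- the centralizer of `x` in `Γ` -/
def cen (Γ : Subgroup Rˣ) (x : Rˣ) : Subgroup Rˣ := Γ ⊓ Subgroup.centralizer {x}

omit [IsDomain R] in
theorem mem_cen {Γ : Subgroup Rˣ} {x u : Rˣ} : u ∈ cen Γ x ↔ u ∈ Γ ∧ Commute u x := by
  simp only [cen, Subgroup.mem_inf, Subgroup.mem_centralizer_singleton_iff]
  constructor
  · rintro ⟨h, h'⟩
    exact ⟨h, h'⟩
  · rintro ⟨h, h'⟩
    exact ⟨h, h'.eq⟩

omit [IsDomain R] in
theorem cen_pow {Γ : Subgroup Rˣ} (h1 : PowCentral Γ) (x : Rˣ) : PowCentral (cen Γ x) := by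
  intro a ha
  obtain ⟨n, hn⟩ := h1 a (mem_cen.1 ha).1
  exact ⟨n, fun v hv => hn v (mem_cen.1 hv).1⟩

theorem cen_roots {Γ : Subgroup Rˣ} {x : Rˣ} (hx : x ^ 2 = -1) : RootsCentral (cen Γ x) := by
  intro q hq hq2 v hv
  rcases eq_or_neg_of_sq (mem_cen.1 hq).2 (hq2.trans hx.symm) with h | h
  · rw [h]
    exact (mem_cen.1 hv).2.symm
  · rw [h]
    exact (mem_cen.1 hv).2.symm.neg_left

/-- `x` has a square root in `Γ` -/
def Big (Γ : Subgroup Rˣ) (x : Rˣ) : Prop := ∃ c ∈ Γ, c ^ 2 = x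

omit [IsDomain R] in
theorem inv_of_sq {x : Rˣ} (hx : x ^ 2 = -1) : x⁻¹ = -x := by
  rw [inv_eq_iff_mul_eq_one, mul_neg, ← sq, hx, neg_neg]

theorem dichotomy {Γ : Subgroup Rˣ} (h1 : PowCentral Γ) {x y : Rˣ} (hx : x ∈ Γ) (hy : y ∈ Γ)
    (hx2 : x ^ 2 = -1) (hy2 : y ^ 2 = -1) :
    y = x ∨ y = -x ∨ x * y = -(y * x) ∨
      ∃ q ∈ Γ, q ^ 2 = -1 ∧ Big Γ q ∧ x * q = -(q * x) := by
  have hr : x⁻¹ * y ∈ Γ := Γ.mul_mem (Γ.inv_mem hx) hy
  have hinv := invert (hx2.trans hy2.symm)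
  obtain ⟨k, hk⟩ := h1 _ hr
  have ht := torsion_of_invert hinv (hk x hx)
  have hy' : y = x * (x⁻¹ * y) := by group
  rcases torsion_cases _ _ ht with h3 | ⟨h3, m, hm⟩
  · rcases one_or_neg_one h3 with h4 | h4
    · left
      rw [hy', h4, mul_one]
    · right; left
      rw [hy', h4, mul_neg, mul_one]
  · right; right
    rcases m with _ | m
    · left
      have h4 : (x⁻¹ * y) ^ 2 = -1 := by simpa using hm
      have h5 : x * y = -(x⁻¹ * y) := by
        calc x * y = x ^ 2 * (x⁻¹ * y) := by group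
          _ = -(x⁻¹ * y) := by rw [hx2, neg_mul, one_mul]
      have h6 : y * x = x⁻¹ * y := by
        have h7 : (x⁻¹ * y)⁻¹ = -(x⁻¹ * y) := inv_of_sq h4
        calc y * x = (x * (x⁻¹ * y) * x⁻¹) * x ^ 2 := by group
          _ = (x⁻¹ * y) := by rw [hinv, h7, hx2, mul_neg, mul_one, neg_neg]
      rw [h5, h6]
    · right
      refine ⟨(x⁻¹ * y) ^ (2 ^ (m + 1)), Γ.pow_mem hr _, hm, ⟨(x⁻¹ * y) ^ (2 ^ m),
        Γ.pow_mem hr _, ?_⟩, ?_⟩
      · rw [← pow_mul, ← pow_succ]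
      · have h4 := conj_pow' hinv (2 ^ (m + 1))
        rw [inv_of_sq hm] at h4
        rw [mul_inv_eq_iff_eq_mul] at h4
        rw [h4, neg_mul]

theorem mem_of_pow_three {G : Type*} [Group G] (S : Subgroup G) {p : G} {n : ℕ}
    (h3 : p ^ 3 ∈ S) (h2 : p ^ (2 ^ n) ∈ S) : p ∈ S := by
  have hco : Nat.Coprime 3 (2 ^ n) := Nat.Coprime.pow_right n (by norm_num)
  have hb := Nat.gcd_eq_gcd_ab 3 (2 ^ n)
  rw [hco.gcd_eq_one] at hb
  have : p = (p ^ 3) ^ (Nat.gcdA 3 (2 ^ n)) * (p ^ (2 ^ n)) ^ (Nat.gcdB 3 (2 ^ n)) := by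
    conv_lhs => rw [← zpow_one p]
    rw [← zpow_natCast p 3, ← zpow_natCast p (2 ^ n), ← zpow_mul, ← zpow_mul, ← zpow_add]
    congr 1
  rw [this]
  exact S.mul_mem (S.zpow_mem h3 _) (S.zpow_mem h2 _)

theorem not_both_big {Γ : Subgroup Rˣ} (h1 : PowCentral Γ) (hne : (-1 : Rˣ) ≠ 1) {x y : Rˣ}
    (hx : x ∈ Γ) (hy : y ∈ Γ) (hx2 : x ^ 2 = -1) (hy2 : y ^ 2 = -1) (hxy : x * y = -(y * x))
    (hbx : Big Γ x) (hby : Big Γ y) : False := by
  obtain ⟨c, hc, hcx⟩ := hbx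
  obtain ⟨e, he, hey⟩ := hby
  -- no element commutes and anticommutes
  have key : ∀ {u v : Rˣ}, u * v = v * u → u * v = -(v * u) → False := by
    intro u v h4 h5
    rw [h4] at h5
    apply hne
    have : (v * u) * (v * u)⁻¹ = -(v * u) * (v * u)⁻¹ := by rw [← h5]
    rw [mul_inv_cancel, neg_mul, mul_inv_cancel] at this
    exact this.symm
  have aux : ∀ {x y c : Rˣ}, x ∈ Γ → y ∈ Γ → c ∈ Γ → x ^ 2 = -1 → y ^ 2 = -1 →
      x * y = -(y * x) → c ^ 2 = x → y * c * y⁻¹ = c⁻¹ := by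
    intro x y c hx hy hc hx2 hy2 hxy hcx
    have hcc : Commute c x := by rw [← hcx]; exact (Commute.refl c).pow_right 2
    have hyx : y * x * y⁻¹ = -x := by
      rw [mul_inv_eq_iff_eq_mul, neg_mul, hxy, neg_neg]
    have hd2 : (y * c * y⁻¹) ^ 2 = -x := by rw [conj_pow, hcx, hyx]
    have hdx : Commute (y * c * y⁻¹) x := by
      have : Commute (y * c * y⁻¹) (-x) := by
        rw [← hd2]; exact (Commute.refl _).pow_right 2
      have h := this.neg_right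
      rwa [neg_neg] at h
    have hci2 : (c⁻¹) ^ 2 = -x := by rw [inv_pow, hcx, inv_of_sq hx2]
    have hd : y * c * y⁻¹ ∈ cen Γ x :=
      mem_cen.2 ⟨Γ.mul_mem (Γ.mul_mem hy hc) (Γ.inv_mem hy), hdx⟩
    have hci : c⁻¹ ∈ cen Γ x := mem_cen.2 ⟨Γ.inv_mem hc, hcc.inv_left⟩
    rcases sq_eq (cen_pow h1 x) (cen_roots hx2) hci hd (hci2.trans hd2.symm) with h4 | h4
    · exact h4
    · exfalso
      have h5 : (y * c) ^ 2 = 1 := by
        have : (y * c) ^ 2 = (y * c * y⁻¹) * y ^ 2 * c := by simp [sq, mul_assoc]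
        rw [this, h4, hy2]
        simp
      have h6 : y = c⁻¹ ∨ y = -c⁻¹ := by
        rcases one_or_neg_one h5 with h6 | h6
        · left; exact eq_inv_of_mul_eq_one_left h6
        · right
          have : y = (y * c) * c⁻¹ := by group
          rw [this, h6, neg_mul, one_mul]
      have h7 : x * y = y * x := by
        rcases h6 with h6 | h6
        · rw [h6]; exact hcc.inv_left.eq.symm
        · rw [h6]; exact hcc.inv_left.neg_left.eq.symm
      exact key h7 hxy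
  have hyx : y * x = -(x * y) := by rw [hxy, neg_neg]
  have hc1 : y * c * y⁻¹ = c⁻¹ := aux hx hy hc hx2 hy2 hxy hcx
  have he1 : x * e * x⁻¹ = e⁻¹ := aux hy hx he hy2 hx2 hyx hey
  have aux2 : ∀ {x y c : Rˣ}, c ^ 2 = x → y * c * y⁻¹ = c⁻¹ → c * y * c⁻¹ = x * y := by
    intro x y c hcx hc1
    have h4 : y * c⁻¹ * y⁻¹ = c := by
      have : y * c⁻¹ * y⁻¹ = (y * c * y⁻¹)⁻¹ := by group
      rw [this, hc1, inv_inv]
    have h5 : y * c⁻¹ = c * y := by rw [mul_inv_eq_iff_eq_mul] at h4; exact h4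
    rw [mul_assoc, h5, ← mul_assoc, ← sq, hcx]
  have hc2 : c * y * c⁻¹ = x * y := aux2 hcx hc1
  have he2 : e * x * e⁻¹ = y * x := aux2 hey he1
  have hcc : c * x * c⁻¹ = x := by rw [← hcx]; group
  have hee : e * y * e⁻¹ = y := by rw [← hey]; group
  have hp1 : (c * e) * x * (c * e)⁻¹ = y := by
    calc (c * e) * x * (c * e)⁻¹ = c * (e * x * e⁻¹) * c⁻¹ := by group
      _ = (c * y * c⁻¹) * (c * x * c⁻¹) := by rw [he2]; group
      _ = x * (y * x) := by rw [hc2, hcc, mul_assoc]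
      _ = -(x ^ 2 * y) := by rw [hyx, mul_neg, sq, mul_assoc]
      _ = y := by rw [hx2, neg_mul, one_mul, neg_neg]
  have hp2 : (c * e) * y * (c * e)⁻¹ = x * y := by
    calc (c * e) * y * (c * e)⁻¹ = c * (e * y * e⁻¹) * c⁻¹ := by group
      _ = x * y := by rw [hee, hc2]
  have hp3 : (c * e) * (x * y) * (c * e)⁻¹ = x := by
    calc (c * e) * (x * y) * (c * e)⁻¹
        = ((c * e) * x * (c * e)⁻¹) * ((c * e) * y * (c * e)⁻¹) := by group
      _ = (y * x) * y := by rw [hp1, hp2, mul_assoc]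
      _ = -(x * y ^ 2) := by rw [hyx, neg_mul, sq, mul_assoc]
      _ = x := by rw [hy2, mul_neg, mul_one, neg_neg]
  obtain ⟨n, hn⟩ := h1 (c * e) (Γ.mul_mem hc he)
  have hS3 : (c * e) ^ 3 ∈ Subgroup.centralizer {x} := by
    rw [Subgroup.mem_centralizer_singleton_iff]
    have : (c * e) ^ 3 * x * ((c * e) ^ 3)⁻¹ = x := by
      calc (c * e) ^ 3 * x * ((c * e) ^ 3)⁻¹
          = (c * e) * ((c * e) * ((c * e) * x * (c * e)⁻¹) * (c * e)⁻¹) * (c * e)⁻¹ := by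
            simp [pow_succ, mul_assoc]
        _ = x := by rw [hp1, hp2, hp3]
    rw [mul_inv_eq_iff_eq_mul] at this
    exact this
  have hS2 : (c * e) ^ (2 ^ n) ∈ Subgroup.centralizer {x} := by
    rw [Subgroup.mem_centralizer_singleton_iff]
    exact (hn x hx).eq
  have hS := mem_of_pow_three _ hS3 hS2
  rw [Subgroup.mem_centralizer_singleton_iff] at hS
  have hyx' : y = x := by
    rw [← hp1, hS, mul_assoc, mul_inv_cancel, mul_one]
  exact key (u := x) (v := y) (by rw [hyx']) hxy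

theorem exists_root_finite {Γ : Subgroup Rˣ} (h1 : PowCentral Γ) (h2 : ¬ RootsCentral Γ) :
    ∃ x ∈ Γ, x ^ 2 = -1 ∧ {z : Rˣ | ∃ t ∈ Γ, z = t * x * t⁻¹}.Finite := by
  have h2' : ∃ q ∈ Γ, q ^ 2 = -1 ∧ ∃ v ∈ Γ, ¬ Commute q v := by
    by_contra hcon
    apply h2
    intro q hq hq2 v hv
    by_contra hne
    exact hcon ⟨q, hq, hq2, v, hv, hne⟩
  obtain ⟨q₀, hq₀, hq₀2, v₀, hv₀, hnc⟩ := h2'
  have hne : (-1 : Rˣ) ≠ 1 := by
    intro h
    rw [h] at hq₀2
    apply hnc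
    rcases one_or_neg_one hq₀2 with h4 | h4
    · rw [h4]; exact Commute.one_left _
    · rw [h4, h]; exact Commute.one_left _
  have hconj : ∀ {x t : Rˣ}, x ^ 2 = -1 → (t * x * t⁻¹) ^ 2 = -1 := by
    intro x t hx
    rw [conj_pow, hx]
    simp
  by_cases hbig : ∃ x ∈ Γ, x ^ 2 = -1 ∧ Big Γ x
  · obtain ⟨x, hx, hx2, c, hc, hcx⟩ := hbig
    refine ⟨x, hx, hx2, (Set.toFinite ({x, -x} : Set Rˣ)).subset ?_⟩
    rintro z ⟨t, ht, rfl⟩
    have hz : t * x * t⁻¹ ∈ Γ := Γ.mul_mem (Γ.mul_mem ht hx) (Γ.inv_mem ht)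
    have hz2 : (t * x * t⁻¹) ^ 2 = -1 := hconj hx2
    have hzb : Big Γ (t * x * t⁻¹) :=
      ⟨t * c * t⁻¹, Γ.mul_mem (Γ.mul_mem ht hc) (Γ.inv_mem ht), by rw [conj_pow, hcx]⟩
    rcases dichotomy h1 hx hz hx2 hz2 with h | h | h | ⟨q, hq, hq2, hqb, hqx⟩
    · simp [h]
    · simp [h]
    · exact (not_both_big h1 hne hx hz hx2 hz2 h ⟨c, hc, hcx⟩ hzb).elim
    · exact (not_both_big h1 hne hx hq hx2 hq2 hqx ⟨c, hc, hcx⟩ hqb).elim
  · -- no big root
    have hd : ∀ {x y : Rˣ}, x ∈ Γ → y ∈ Γ → x ^ 2 = -1 → y ^ 2 = -1 →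
        y = x ∨ y = -x ∨ x * y = -(y * x) := by
      intro x y hx hy hx2 hy2
      rcases dichotomy h1 hx hy hx2 hy2 with h | h | h | ⟨q, hq, hq2, hqb, -⟩
      · exact Or.inl h
      · exact Or.inr (Or.inl h)
      · exact Or.inr (Or.inr h)
      · exact (hbig ⟨q, hq, hq2, hqb⟩).elim
    refine ⟨q₀, hq₀, hq₀2, ?_⟩
    by_cases hall : ∀ y ∈ Γ, y ^ 2 = -1 → y = q₀ ∨ y = -q₀
    · refine (Set.toFinite ({q₀, -q₀} : Set Rˣ)).subset ?_
      rintro z ⟨t, ht, rfl⟩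
      have := hall _ (Γ.mul_mem (Γ.mul_mem ht hq₀) (Γ.inv_mem ht)) (hconj hq₀2)
      simpa using this
    · push Not at hall
      obtain ⟨y, hy, hy2, hy3, hy4⟩ := hall
      have hqy : q₀ * y = -(y * q₀) := by
        rcases hd hq₀ hy hq₀2 hy2 with h | h | h
        · exact (hy3 h).elim
        · exact (hy4 h).elim
        · exact h
      have hw2 : (q₀ * y) ^ 2 = -1 := by
        calc (q₀ * y) ^ 2 = q₀ * (y * q₀) * y := by simp [sq, mul_assoc]
          _ = q₀ * (-(q₀ * y)) * y := by rw [hqy, neg_neg]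
          _ = -(q₀ ^ 2 * y ^ 2) := by simp [sq, mul_assoc]
          _ = -1 := by rw [hq₀2, hy2]; simp
      refine (Set.toFinite ({q₀, -q₀, y, -y, q₀ * y, -(q₀ * y)} : Set Rˣ)).subset ?_
      rintro z ⟨t, ht, rfl⟩
      have hz : t * q₀ * t⁻¹ ∈ Γ := Γ.mul_mem (Γ.mul_mem ht hq₀) (Γ.inv_mem ht)
      have hz2 : (t * q₀ * t⁻¹) ^ 2 = -1 := hconj hq₀2
      generalize t * q₀ * t⁻¹ = z at hz hz2
      rcases hd hq₀ hz hq₀2 hz2 with h | h | h
      · simp [h]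
      · simp [h]
      · rcases hd hy hz hy2 hz2 with h' | h' | h'
        · simp [h']
        · simp [h']
        · have hc : Commute (q₀ * y) z := by
            show q₀ * y * z = z * (q₀ * y)
            calc q₀ * y * z = q₀ * (y * z) := by rw [mul_assoc]
              _ = -(q₀ * z * y) := by rw [h', mul_neg, mul_assoc]
              _ = z * (q₀ * y) := by rw [h, neg_mul, neg_neg, mul_assoc]
          rcases eq_or_neg_of_sq hc (hw2.trans hz2.symm) with h5 | h5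
          · simp [← h5]
          · have : z = -(q₀ * y) := by rw [h5, neg_neg]
            simp [this]

/-- Main theorem of this file. -/
theorem exists_fc {Γ : Subgroup Rˣ} (h1 : PowCentral Γ) :
    (∀ a ∈ Γ, {z : Rˣ | ∃ t ∈ Γ, z = t * a * t⁻¹}.Finite) ∨
    ∃ x ∈ Γ, {z : Rˣ | ∃ t ∈ Γ, z = t * x * t⁻¹}.Finite ∧
      ∀ a ∈ cen Γ x, {z : Rˣ | ∃ t ∈ cen Γ x, z = t * a * t⁻¹}.Finite := by
  by_cases h2 : RootsCentral Γ
  · left
    intro a ha
    obtain ⟨n, hn⟩ := h1 a ha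
    exact finite_conj h1 h2 n a ha hn
  · right
    obtain ⟨x, hx, hx2, hfin⟩ := exists_root_finite h1 h2
    refine ⟨x, hx, hfin, ?_⟩
    intro a ha
    obtain ⟨n, hn⟩ := cen_pow h1 x a ha
    exact finite_conj (cen_pow h1 x) (cen_roots hx2) n a ha hn

end Pool.Agent.Work.MP87745.Two
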