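import Mathlib
import Pool.Agent.Work.MP_87745a_al_h92.Two
import Pool.Agent.Work.MP_87745a_al_h92.FinGrp

/-!
Homogeneous units commuting with the identity component of a graded domain, and the theorem on
2-groups.
-/

set_option autoImplicit false

namespace Pool.Agent.Work.MP87745

open DirectSum

variable {G : Type*} [Group G] {R : Type*} [Ring R] [DecidableEq (Additive G)]
  (𝒜 : Additive G → AddSubgroup R) [GradedRing 𝒜]

theorem inv_mem_of_mem {u : Rˣ} {g : Additive G} (hu : (u : R) ∈ 𝒜 g) :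
    ((u⁻¹ : Rˣ) : R) ∈ 𝒜 (-g) := by
  have h1 : (decompose 𝒜 ((u : R) * ((u⁻¹ : Rˣ) : R)) (g + -g) : R)
      = (u : R) * decompose 𝒜 ((u⁻¹ : Rˣ) : R) (-g) :=
    coe_decompose_mul_add_of_left_mem 𝒜 hu
  have h2 : (u : R) * ((u⁻¹ : Rˣ) : R) = 1 := Units.mul_inv u
  rw [h2, add_neg_cancel] at h1
  have h3 : (decompose 𝒜 (1 : R) 0 : R) = 1 := by
    rw [decompose_of_mem_same 𝒜 SetLike.GradedOne.one_mem]
  rw [h3] at h1
  have h4 : ((u⁻¹ : Rˣ) : R) = decompose 𝒜 ((u⁻¹ : Rˣ) : R) (-g) := by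
    calc ((u⁻¹ : Rˣ) : R) = ((u⁻¹ : Rˣ) : R) * 1 := (mul_one _).symm
      _ = ((u⁻¹ : Rˣ) : R) * ((u : R) * decompose 𝒜 ((u⁻¹ : Rˣ) : R) (-g)) := by rw [← h1]
      _ = decompose 𝒜 ((u⁻¹ : Rˣ) : R) (-g) := by rw [← mul_assoc, Units.inv_mul, one_mul]
  rw [h4]
  exact (decompose 𝒜 ((u⁻¹ : Rˣ) : R) (-g)).2

theorem degree_unique [Nontrivial R] {u : Rˣ} {g h : Additive G} (hg : (u : R) ∈ 𝒜 g)
    (hh : (u : R) ∈ 𝒜 h) : g = h := by
  by_contra hne
  have h1 := decompose_of_mem_same 𝒜 hg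
  have h2 := decompose_of_mem_ne 𝒜 hh (Ne.symm hne)
  rw [h1] at h2
  exact u.ne_zero h2

/-- the group of pairs `(u, g)`, `u` a unit of degree `g` commuting with the component of `1` -/
def pairs : Subgroup (Rˣ × G) where
  carrier := {p | (p.1 : R) ∈ 𝒜 (Additive.ofMul p.2) ∧ ∀ k ∈ 𝒜 0, (p.1 : R) * k = k * p.1}
  mul_mem' := by
    rintro ⟨u, g⟩ ⟨v, h⟩ ⟨h1, h2⟩ ⟨h3, h4⟩
    refine ⟨?_, ?_⟩
    · exact SetLike.GradedMul.mul_mem h1 h3
    · intro k hk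
      have h5 := h2 k hk
      have h6 := h4 k hk
      simp only [Prod.mk_mul_mk, Units.val_mul] at h5 h6 ⊢
      rw [mul_assoc, h6, ← mul_assoc, h5, mul_assoc]
  one_mem' := by
    refine ⟨?_, ?_⟩
    · exact (SetLike.GradedOne.one_mem : (1 : R) ∈ 𝒜 0)
    · intro k _
      simp
  inv_mem' := by
    rintro ⟨u, g⟩ ⟨h1, h2⟩
    refine ⟨?_, ?_⟩
    · exact inv_mem_of_mem 𝒜 h1
    · intro k hk
      have h5 : (u : R) * k = k * u := h2 k hk
      show ((u⁻¹ : Rˣ) : R) * k = k * ((u⁻¹ : Rˣ) : R)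
      calc ((u⁻¹ : Rˣ) : R) * k = ((u⁻¹ : Rˣ) : R) * (k * u) * ((u⁻¹ : Rˣ) : R) := by
            rw [mul_assoc, mul_assoc, Units.mul_inv, mul_one]
        _ = k * ((u⁻¹ : Rˣ) : R) := by rw [← h5, ← mul_assoc, Units.inv_mul, one_mul]

theorem finite_closure [IsDomain R] (s : Finset G)
    (h2 : ∀ g ∈ Subgroup.closure (s : Set G), ∃ n : ℕ, g ^ 2 ^ n = 1)
    (hs : ∀ g ∈ s, ∃ u : Rˣ, (u : R) ∈ 𝒜 (Additive.ofMul g) ∧ ∀ k ∈ 𝒜 0, (u : R) * k = k * u) :
    Finite (Subgroup.closure (s : Set G)) := by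
  classical
  choose! u hu1 hu2 using hs
  -- the finitely generated group of lifts
  set T : Set (Rˣ × G) := (fun g => (u g, g)) '' (s : Set G) with hT
  set E : Subgroup (Rˣ × G) := Subgroup.closure T with hE
  have hTfin : T.Finite := s.finite_toSet.image _
  have hFG : Group.FG E := by
    rw [Group.fg_iff_subgroup_fg]
    exact ⟨hTfin.toFinset, by simp [hE]⟩
  have hEle : E ≤ pairs 𝒜 := by
    rw [hE, Subgroup.closure_le]
    rintro _ ⟨g, hg, rfl⟩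
    exact ⟨hu1 g hg, hu2 g hg⟩
  set f₁ : E →* Rˣ := (MonoidHom.fst Rˣ G).comp E.subtype with hf₁
  set f₂ : E →* G := (MonoidHom.snd Rˣ G).comp E.subtype with hf₂
  have hinj : Function.Injective f₁ := by
    rintro ⟨⟨a, g⟩, ha⟩ ⟨⟨b, h⟩, hb⟩ hab
    have h1 : a = b := hab
    subst h1
    have h3 := hEle ha
    have h4 := hEle hb
    have h5 : g = h := degree_unique 𝒜 h3.1 h4.1
    subst h5
    rfl
  have hrange2 : f₂.range = Subgroup.closure (s : Set G) := by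
    rw [hf₂, MonoidHom.range_comp, Subgroup.range_subtype, hE, MonoidHom.map_closure]
    congr 1
    rw [hT, Set.image_image]
    simp
  set Γ : Subgroup Rˣ := f₁.range with hΓ
  have hpow : Two.PowCentral Γ := by
    rintro _ ⟨⟨⟨a, g⟩, ha⟩, rfl⟩
    have hg : g ∈ Subgroup.closure (s : Set G) := by
      rw [← hrange2]; exact ⟨⟨(a, g), ha⟩, rfl⟩
    obtain ⟨n, hn⟩ := h2 g hg
    refine ⟨n, ?_⟩
    rintro _ ⟨⟨⟨b, h⟩, hb⟩, rfl⟩
    have h3 := hEle (E.pow_mem ha (2 ^ n))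
    have h4 := hEle hb
    have h5 : ((a ^ 2 ^ n : Rˣ) : R) ∈ 𝒜 0 := by
      have := h3.1
      simp only [Prod.pow_mk, hn] at this
      exact this
    have h6 := h4.2 _ h5
    show a ^ 2 ^ n * b = b * a ^ 2 ^ n
    apply Units.ext
    simpa using h6.symm
  have htor : ∀ e : E, ∃ n : ℕ, 0 < n ∧ f₂ e ^ n = 1 := by
    intro e
    obtain ⟨n, hn⟩ := h2 (f₂ e) (by rw [← hrange2]; exact ⟨e, rfl⟩)
    exact ⟨2 ^ n, by positivity, hn⟩
  have hfin : (Set.range f₂).Finite := by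
    rcases Two.exists_fc hpow with hfc | ⟨x, hx, hxfin, hfc⟩
    · refine FinGrp.finite_of_fc ⊤ ?_ f₂ htor
      intro a _
      refine Set.Finite.of_finite_image (f := f₁) ((hfc (f₁ a) ⟨a, rfl⟩).subset ?_) hinj.injOn
      rintro _ ⟨z, ⟨t, -, rfl⟩, rfl⟩
      exact ⟨f₁ t, ⟨t, rfl⟩, by simp⟩
    · obtain ⟨e, rfl⟩ := hx
      have hidx : (Subgroup.centralizer {e}).FiniteIndex := by
        apply FinGrp.finiteIndex_centralizer
        refine Set.Finite.of_finite_image (f := f₁) (hxfin.subset ?_) hinj.injOn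
        rintro _ ⟨z, ⟨t, rfl⟩, rfl⟩
        exact ⟨f₁ t, ⟨t, rfl⟩, by simp⟩
      have hcen : ∀ a ∈ Subgroup.centralizer {e}, f₁ a ∈ Two.cen Γ (f₁ e) := by
        intro a ha
        rw [Subgroup.mem_centralizer_singleton_iff] at ha
        refine Two.mem_cen.2 ⟨⟨a, rfl⟩, ?_⟩
        show f₁ a * f₁ e = f₁ e * f₁ a
        rw [← map_mul, ← map_mul, ha]
      refine FinGrp.finite_of_fc (Subgroup.centralizer {e}) ?_ f₂ htor
      intro a ha
      refine Set.Finite.of_finite_image (f := f₁) ((hfc (f₁ a) (hcen a ha)).subset ?_) hinj.injOn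
      rintro _ ⟨z, ⟨t, ht, rfl⟩, rfl⟩
      exact ⟨f₁ t, hcen t ht, by simp⟩
  have : ((Subgroup.closure (s : Set G) : Subgroup G) : Set G).Finite := by
    rw [← hrange2, MonoidHom.coe_range]
    exact hfin
  exact this

end Pool.Agent.Work.MP87745
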