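import Mathlib
import Pool.Agent.Work.MP_87745a_al_h92.Sch

/-!
Example: groups of Grigorchuk type. `flip₀` changes the first letter of an infinite binary
sequence; `dir v` changes the letter after the first `false`, if this is at a level `n` with
`v n = true`. The Grigorchuk groups `G_ω` are generated by `flip₀` and three `dir v`.
-/

set_option autoImplicit false

namespace Pool.Agent.Work.MP87745.Grig

/-- infinite binary sequences -/
abbrev X : Type := ℕ → Bool

def flip₀ (x : X) : X := fun k => if k = 0 then !x 0 else x k

/-- `n` is the position of the first `false` -/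
def First (x : X) (n : ℕ) : Prop := (∀ j < n, x j = true) ∧ x n = false

open Classical in
noncomputable def dir (v : ℕ → Bool) (x : X) : X :=
  fun k => if ∃ n, k = n + 1 ∧ First x n ∧ v n = true then !x k else x k

theorem flip₀_flip₀ (x : X) : flip₀ (flip₀ x) = x := by
  funext k
  by_cases h : k = 0
  · subst h; simp [flip₀]
  · simp [flip₀, h]

theorem first_unique {x : X} {m n : ℕ} (hm : First x m) (hn : First x n) : m = n := by
  rcases lt_trichotomy m n with h | h | h
  · have := hn.1 m h
    rw [hm.2] at this
    exact absurd this (by simp)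
  · exact h
  · have := hm.1 n h
    rw [hn.2] at this
    exact absurd this (by simp)

theorem dir_of_first {v : ℕ → Bool} {x : X} {n : ℕ} (hn : First x n) (hv : v n = true) :
    dir v x = fun k => if k = n + 1 then !x k else x k := by
  funext k
  unfold dir
  by_cases h : k = n + 1
  · rw [if_pos ⟨n, h, hn, hv⟩, if_pos h]
  · rw [if_neg, if_neg h]
    rintro ⟨m, hm1, hm2, -⟩
    exact h (by rw [first_unique hn hm2]; exact hm1)

theorem dir_of_first_false {v : ℕ → Bool} {x : X} {n : ℕ} (hn : First x n) (hv : v n = false) :
    dir v x = x := by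
  funext k
  unfold dir
  rw [if_neg]
  rintro ⟨m, -, hm2, hm3⟩
  rw [← first_unique hn hm2, hv] at hm3
  exact absurd hm3 (by simp)

theorem dir_of_no_first {v : ℕ → Bool} {x : X} (hn : ∀ n, ¬ First x n) : dir v x = x := by
  funext k
  unfold dir
  rw [if_neg]
  rintro ⟨m, -, hm2, -⟩
  exact hn m hm2

/-- the full directed involution -/
noncomputable def dir₁ : X → X := dir (fun _ => true)

theorem dir_cases (v : ℕ → Bool) (x : X) : dir v x = x ∨ dir v x = dir₁ x := by
  by_cases h : ∃ n, First x n
  · obtain ⟨n, hn⟩ := h
    by_cases hv : v n = true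
    · right
      rw [dir_of_first hn hv, dir₁, dir_of_first hn rfl]
    · left
      exact dir_of_first_false hn (by simpa using hv)
  · left
    exact dir_of_no_first (fun n hn => h ⟨n, hn⟩)

theorem first_dir {v : ℕ → Bool} {x : X} {n : ℕ} (hn : First x n) : First (dir v x) n := by
  by_cases hv : v n = true
  · rw [dir_of_first hn hv]
    refine ⟨fun j hj => ?_, ?_⟩
    · simp only
      rw [if_neg (by omega)]
      exact hn.1 j hj
    · simp only
      rw [if_neg (by omega)]
      exact hn.2
  · rw [dir_of_first_false hn (by simpa using hv)]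
    exact hn

theorem dir_dir (v : ℕ → Bool) (x : X) : dir v (dir v x) = x := by
  by_cases h : ∃ n, First x n
  · obtain ⟨n, hn⟩ := h
    by_cases hv : v n = true
    · rw [dir_of_first (first_dir hn) hv, dir_of_first hn hv]
      funext k
      by_cases hk : k = n + 1
      · simp [hk]
      · simp [hk]
    · have hv' : v n = false := by simpa using hv
      rw [dir_of_first_false (first_dir hn) hv', dir_of_first_false hn hv']
  · have h' : ∀ n, ¬ First x n := fun n hn => h ⟨n, hn⟩
    rw [dir_of_no_first (v := v) h', dir_of_no_first h']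

/-- the permutations -/
def flipE : Equiv.Perm X := ⟨flip₀, flip₀, flip₀_flip₀, flip₀_flip₀⟩

noncomputable def dirE (v : ℕ → Bool) : Equiv.Perm X := ⟨dir v, dir v, dir_dir v, dir_dir v⟩

/-- Gray code -/
def y (n : ℕ) : X := fun i => !(xor (n.testBit i) (n.testBit (i + 1)))

theorem y_succ (n i : ℕ) : y n (i + 1) = y (n / 2) i := by
  simp [y, Nat.testBit_succ]

theorem y_zero (n : ℕ) : y n 0 = !(xor (decide (n % 2 = 1)) (decide (n / 2 % 2 = 1))) := by
  simp [y, Nat.testBit_succ, Nat.testBit_zero]

theorem y_injective : Function.Injective y := by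
  intro m
  induction m using Nat.strong_induction_on with
  | _ m ih =>
    intro n h
    have h0 : y m 0 = y n 0 := by rw [h]
    have h1 : y (m / 2) = y (n / 2) := by
      funext i
      rw [← y_succ, ← y_succ, h]
    by_cases hm : m = 0
    · subst hm
      by_contra hne
      -- strong induction on `n` shows `y n = y 0` only for `n = 0`
      have key : ∀ n, y 0 = y n → n = 0 := by
        intro n
        induction n using Nat.strong_induction_on with
        | _ n ihn =>
          intro hn
          by_contra hn0
          have h3 : y 0 = y (n / 2) := by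
            funext i
            have := congrFun hn (i + 1)
            rw [y_succ, y_succ] at this
            simpa using this
          have h4 := ihn (n / 2) (by omega) h3
          have h5 : n = 1 := by omega
          subst h5
          have h6 := congrFun hn 0
          rw [y_zero, y_zero] at h6
          simp at h6
      exact hne (key n h).symm
    · have h3 := ih (m / 2) (by omega) h1
      rw [y_zero, y_zero, h3] at h0
      have h5 : (m % 2 = 1) ↔ (n % 2 = 1) := by simpa using h0
      omega

theorem ext_y {x x' : X} (h0 : x 0 = x' 0) (h1 : ∀ i, x (i + 1) = x' (i + 1)) : x = x' := by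
  funext i
  rcases i with _ | i
  · exact h0
  · exact h1 i

theorem flip₀_even (m : ℕ) : flip₀ (y (2 * m)) = y (2 * m + 1) := by
  apply ext_y
  · simp only [flip₀, if_true]
    rw [y_zero, y_zero]
    have h1 : 2 * m / 2 = m := by omega
    have h2 : (2 * m + 1) / 2 = m := by omega
    rw [h1, h2]
    have h3 : (2 * m) % 2 ≠ 1 := by omega
    have h4 : (2 * m + 1) % 2 = 1 := by omega
    simp [h3, h4]
  · intro i
    have : flip₀ (y (2 * m)) (i + 1) = y (2 * m) (i + 1) := by simp [flip₀]
    have h1 : 2 * m / 2 = m := by omega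
    have h2 : (2 * m + 1) / 2 = m := by omega
    rw [this, y_succ, y_succ, h1, h2]

theorem flip₀_odd (m : ℕ) : flip₀ (y (2 * m + 1)) = y (2 * m) := by
  rw [← flip₀_even, flip₀_flip₀]

theorem y0_no_first : ∀ n, ¬ First (y 0) n := by
  intro n hn
  have := hn.2
  simp [y] at this

theorem dir₁_of_false {x : X} (h : x 0 = false) : dir₁ x = fun k => if k = 1 then !x k else x k := by
  have hf : First x 0 := ⟨by simp, h⟩
  rw [dir₁, dir_of_first hf rfl]

theorem dir₁_of_true {x : X} (h : x 0 = true) :
    dir₁ x = fun k => if k = 0 then true else dir₁ (fun i => x (i + 1)) (k - 1) := by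
  by_cases hex : ∃ n, First (fun i => x (i + 1)) n
  · obtain ⟨n, hn⟩ := hex
    have hf : First x (n + 1) := by
      refine ⟨fun j hj => ?_, hn.2⟩
      rcases j with _ | j
      · exact h
      · exact hn.1 j (by omega)
    rw [dir₁, dir_of_first hf rfl, dir_of_first hn rfl]
    funext k
    rcases k with _ | k
    · simp [h]
    · simp
  · have h1 : ∀ n, ¬ First (fun i => x (i + 1)) n := fun n hn => hex ⟨n, hn⟩
    have h2 : ∀ n, ¬ First x n := by
      intro n hn
      rcases n with _ | n
      · have := hn.2; rw [h] at this; exact absurd this (by simp)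
      · exact h1 n ⟨fun j hj => hn.1 (j + 1) (by omega), hn.2⟩
    rw [dir₁, dir_of_no_first h2, dir_of_no_first h1]
    funext k
    rcases k with _ | k
    · simp [h]
    · simp

theorem dir₁_y : ∀ n : ℕ, dir₁ (y (2 * n + 1)) = y (2 * n + 2) := by
  intro n
  induction n using Nat.strong_induction_on with
  | _ n ih =>
    have h1 : (2 * n + 1) / 2 = n := by omega
    have h2 : (2 * n + 2) / 2 = n + 1 := by omega
    rcases Nat.even_or_odd' n with ⟨m, hm | hm⟩
    · -- `n` even : the first letter is `false`
      have h0 : y (2 * n + 1) 0 = false := by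
        rw [y_zero, h1]
        have h3 : (2 * n + 1) % 2 = 1 := by omega
        have h4 : n % 2 ≠ 1 := by omega
        simp [h3, h4]
      rw [dir₁_of_false h0]
      apply ext_y
      · simp only [if_neg (by omega : ¬ (0 : ℕ) = 1)]
        rw [h0, y_zero, h2]
        have h3 : (2 * n + 2) % 2 ≠ 1 := by omega
        have h4 : (n + 1) % 2 = 1 := by omega
        simp [h3, h4]
      · intro i
        have h5 : y (n + 1) = flip₀ (y n) := by rw [hm, flip₀_even]
        have h6 : y (2 * n + 2) (i + 1) = flip₀ (y n) i := by rw [y_succ, h2, h5]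
        have h7 : y (2 * n + 1) (i + 1) = y n i := by rw [y_succ, h1]
        rw [h6]
        simp only [h7, flip₀]
        rcases i with _ | i
        · simp
        · simp
    · -- `n` odd
      have h0 : y (2 * n + 1) 0 = true := by
        rw [y_zero, h1]
        have h3 : (2 * n + 1) % 2 = 1 := by omega
        have h4 : n % 2 = 1 := by omega
        simp [h3, h4]
      rw [dir₁_of_true h0]
      apply ext_y
      · simp only [if_true]
        rw [y_zero, h2]
        have h3 : (2 * n + 2) % 2 ≠ 1 := by omega
        have h4 : (n + 1) % 2 ≠ 1 := by omega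
        simp [h3, h4]
      · intro i
        have h5 : (fun i => y (2 * n + 1) (i + 1)) = y n := by
          funext i; rw [y_succ, h1]
        have h6 : y (2 * n + 2) (i + 1) = y (n + 1) i := by rw [y_succ, h2]
        have h8 : y (n + 1) = dir₁ (y n) := by
          rw [hm, ih m (by omega)]
        rw [h6, h8]
        simp [h5]

theorem dir₁_y' (n : ℕ) : dir₁ (y (2 * n + 2)) = y (2 * n + 1) := by
  rw [← dir₁_y, dir₁, dir_dir]

theorem dir₁_y0 : dir₁ (y 0) = y 0 := dir_of_no_first y0_no_first

theorem flip_y (n : ℕ) : flip₀ (y n) = y (n + 1) ∨ (0 < n ∧ flip₀ (y n) = y (n - 1)) := by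
  rcases Nat.even_or_odd' n with ⟨m, hm | hm⟩
  · left; rw [hm, flip₀_even]
  · right; refine ⟨by omega, ?_⟩
    rw [hm, flip₀_odd]; congr 1

theorem dirv_y (v : ℕ → Bool) (n : ℕ) : dir v (y n) = y n ∨ dir v (y n) = y (n + 1) ∨
    (0 < n ∧ dir v (y n) = y (n - 1)) := by
  rcases dir_cases v (y n) with h | h
  · exact Or.inl h
  · rw [h]
    rcases Nat.even_or_odd' n with ⟨m, hm | hm⟩
    · rcases m with _ | m
      · left; rw [hm]; exact dir₁_y0
      · right; right
        refine ⟨by omega, ?_⟩
        have : n = 2 * m + 2 := by omega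
        rw [this, dir₁_y']; congr 1
    · right; left
      rw [hm, dir₁_y]

/-- The theorem for groups of Grigorchuk type: let `V` be a finite set of sequences such that each
level is moved by some `v ∈ V`. No crossed product of a group acting on infinite binary sequences
such that some finite set `S` of its elements acts as `flip₀` and the `dir v`, is a division ring. -/
theorem grigorchuk (V : Finset (ℕ → Bool)) (hV : ∀ n, ∃ v ∈ V, v n = true)
    (G : Subgroup (Equiv.Perm X)) (ha : flipE ∈ G) (hb : ∀ v ∈ V, dirE v ∈ G)
    {D : Type*} [DivisionRing D] [DecidableEq (Additive G)] (𝒜 : Additive G → AddSubgroup D)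
    [GradedRing 𝒜] (h𝒜 : ∀ g : Additive G, 𝒜 g ≠ ⊥) : False := by
  classical
  set a : G := ⟨flipE, ha⟩ with hadef
  set S : Finset G := insert a (V.attach.image (fun v => (⟨dirE v.1, hb v.1 v.2⟩ : G))) with hS
  have hact : ∀ (g : G) (x : X), g • x = (g : Equiv.Perm X) x := fun g x => rfl
  have hSy : ∀ s ∈ S, ∀ n : ℕ, s • y n = y n ∨ s • y n = y (n + 1) ∨
      (0 < n ∧ s • y n = y (n - 1)) := by
    intro s hs n
    rw [hS, Finset.mem_insert, Finset.mem_image] at hs
    rcases hs with rfl | ⟨v, -, rfl⟩
    · right
      exact flip_y n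
    · exact dirv_y v.1 n
  have hSinv : ∀ s ∈ S, ∀ x : X, s⁻¹ • x = s • x := by
    intro s hs x
    rw [inv_smul_eq_iff]
    rw [hS, Finset.mem_insert, Finset.mem_image] at hs
    rcases hs with rfl | ⟨v, -, rfl⟩
    · exact (flip₀_flip₀ x).symm
    · exact (dir_dir v.1 x).symm
  have horb : ∀ x ∈ MulAction.orbit (Subgroup.closure (S : Set G)) (y 0), ∃ n, x = y n := by
    rintro _ ⟨⟨g, hg⟩, rfl⟩
    show ∃ n, g • y 0 = y n
    induction hg using Subgroup.closure_induction_left with
    | one => exact ⟨0, one_smul _ _⟩
    | mul_left s hs g _ ih =>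
      obtain ⟨n, hn⟩ := ih
      rw [mul_smul, hn]
      rcases hSy s hs n with h | h | ⟨_, h⟩
      · exact ⟨n, h⟩
      · exact ⟨n + 1, h⟩
      · exact ⟨n - 1, h⟩
    | inv_mul_cancel s hs g _ ih =>
      obtain ⟨n, hn⟩ := ih
      rw [mul_smul, hn, hSinv s hs]
      rcases hSy s hs n with h | h | ⟨_, h⟩
      · exact ⟨n, h⟩
      · exact ⟨n + 1, h⟩
      · exact ⟨n - 1, h⟩
  have hstep : ∀ n : ℕ, ∃ s ∈ S, s • y n = y (n + 1) := by
    intro n
    rcases Nat.even_or_odd' n with ⟨m, hm | hm⟩
    · refine ⟨a, by simp [hS], ?_⟩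
      show flip₀ (y n) = y (n + 1)
      rw [hm, flip₀_even]
    · have hfirst : ∃ k, First (y n) k := by
        by_contra hcon
        push Not at hcon
        have h1 := dir_of_no_first (v := fun _ => true) hcon
        have h2 : dir₁ (y n) = y (n + 1) := by rw [hm, dir₁_y]
        rw [dir₁, h1] at h2
        have := y_injective h2
        omega
      obtain ⟨k, hk⟩ := hfirst
      obtain ⟨v, hv, hvk⟩ := hV k
      refine ⟨⟨dirE v, hb v hv⟩, ?_, ?_⟩
      · rw [hS, Finset.mem_insert, Finset.mem_image]
        exact Or.inr ⟨⟨v, hv⟩, Finset.mem_attach _ _, rfl⟩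
      · show dir v (y n) = y (n + 1)
        have h2 : dir₁ (y n) = y (n + 1) := by rw [hm, dir₁_y]
        rw [← h2, dir₁, dir_of_first hk hvk, dir_of_first hk rfl]
  refine Sch.no_private 𝒜 h𝒜 S (y 0) (Function.invFun y) ?_
  intro x hx
  obtain ⟨n, rfl⟩ := horb x hx
  obtain ⟨s, hs, hsn⟩ := hstep n
  refine ⟨s, hs, ?_, ?_⟩
  · rw [hsn]
    intro h
    have := y_injective h
    omega
  · intro x' hx' s' hs' heq hne
    obtain ⟨m, rfl⟩ := horb x' hx'
    rw [Function.leftInverse_invFun y_injective, Function.leftInverse_invFun y_injective]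
    rw [hsn] at heq
    have hmn : m ≠ n := fun h => hne (by rw [h])
    rcases hSy s' hs' m with h | h | ⟨h0, h⟩
    · have := y_injective (h.symm.trans heq); omega
    · have := y_injective (h.symm.trans heq); omega
    · have := y_injective (h.symm.trans heq); omega

end Pool.Agent.Work.MP87745.Grig
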